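import Pool.Agent.Helper20.GT.Stm2

set_option autoImplicit false

open Finset Filter Topology
open scoped Classical

namespace Pool.Agent.Helper28.GT2

open Pool.Agent.Helper20.GT2

theorem pw {M s : ℝ} (hM : 1 ≤ M) (hs : 0 ≤ s) {a t : ℝ} (hsM : s ≤ 2 * M ^ a) (ht0 : 0 ≤ t)
    (ht1 : t ≤ 1) : s ^ t ≤ 2 * M ^ (a * t) := by
  have hM0 : 0 ≤ M := by linarith
  calc s ^ t ≤ (2 * M ^ a) ^ t := Real.rpow_le_rpow hs hsM ht0
    _ = 2 ^ t * M ^ (a * t) := by
        rw [Real.mul_rpow (by norm_num) (Real.rpow_nonneg hM0 _), ← Real.rpow_mul hM0]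
    _ ≤ 2 * M ^ (a * t) := by
        refine mul_le_mul_of_nonneg_right ?_ (Real.rpow_nonneg hM0 _)
        calc (2 : ℝ) ^ t ≤ 2 ^ (1 : ℝ) := Real.rpow_le_rpow_of_exponent_le (by norm_num) ht1
          _ = 2 := Real.rpow_one _

theorem uni : S_UNI := by
  rintro Q R t1 t2 α h10 h11 h20 h21 ha0 ha1 ⟨C1, hC1, hQ, hx1⟩ ⟨C2, hC2, hR, hx2⟩
  obtain ⟨K, hK⟩ : ∃ K : ℕ, C1 + C2 ≤ K := ⟨_, Nat.le_ceil _⟩
  have hK2 : (2 : ℝ) ≤ K := by linarith
  have hCC : (0 : ℝ) ≤ K * (C1 + C2) := by positivity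
  set C := 8 * (2 * K + 1) * (C1 + C2) with hCdef
  have hCge : 8 * (C1 + C2) ≤ C := by rw [hCdef]; nlinarith
  refine ⟨C, by linarith, ?_, ?_⟩
  · rintro q (hq | hq)
    · have := hQ q hq; linarith
    · have := hR q hq; linarith
  intro M hM
  have hM1 : (1 : ℝ) ≤ M := by exact_mod_cast hM
  have hM0 : (0 : ℝ) < M := by linarith
  have hMa : (1 : ℝ) ≤ (M : ℝ) ^ α := Real.one_le_rpow hM1 ha0
  have hMb : (1 : ℝ) ≤ (M : ℝ) ^ (1 - α) := Real.one_le_rpow hM1 (by linarith)
  have hMab : (M : ℝ) ^ α * (M : ℝ) ^ (1 - α) = M := by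
    rw [← Real.rpow_add hM0]
    have : α + (1 - α) = 1 := by ring
    rw [this, Real.rpow_one]
  set s := ⌈(M : ℝ) ^ α⌉₊ with hs
  have hsge : (M : ℝ) ^ α ≤ s := Nat.le_ceil _
  have hsle : (s : ℝ) ≤ 2 * (M : ℝ) ^ α := by
    have := Nat.ceil_lt_add_one (a := (M : ℝ) ^ α) (by linarith)
    linarith
  have hs0 : (1 : ℝ) ≤ s := hMa.trans hsge
  have hs1 : 1 ≤ s := by exact_mod_cast hs0
  set r := M / s + 1 with hr
  have hr1 : 1 ≤ r := Nat.succ_le_succ (Nat.zero_le _)
  have hr0 : (1 : ℝ) ≤ r := by exact_mod_cast hr1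
  have hMs : M < r * s := by
    have := Nat.lt_mul_div_succ M (show 0 < s by omega)
    rw [mul_comm]
    exact this
  have hrle : (r : ℝ) ≤ 2 * (M : ℝ) ^ (1 - α) := by
    have h1 : ((M / s : ℕ) : ℝ) ≤ (M : ℝ) / s := Nat.cast_div_le
    have h2 : (M : ℝ) / s ≤ (M : ℝ) ^ (1 - α) := by
      rw [div_le_iff₀ (by linarith)]
      calc (M : ℝ) = (M : ℝ) ^ α * (M : ℝ) ^ (1 - α) := hMab.symm
        _ ≤ s * (M : ℝ) ^ (1 - α) := mul_le_mul_of_nonneg_right hsge (by linarith)
        _ = _ := mul_comm _ _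
    rw [hr]; push_cast; linarith
  have hsr : (s : ℝ) * r ≤ 4 * M := by
    calc (s : ℝ) * r ≤ (2 * (M : ℝ) ^ α) * (2 * (M : ℝ) ^ (1 - α)) :=
          mul_le_mul hsle hrle (by linarith) (by linarith)
      _ = 4 * ((M : ℝ) ^ α * (M : ℝ) ^ (1 - α)) := by ring
      _ = 4 * M := by rw [hMab]
  obtain ⟨x1, hb1, hc1⟩ := hx1 s hs1
  obtain ⟨x2, hb2, hc2⟩ := hx2 r hr1
  have hdiv : ∀ d < M, d / r < s := fun d hd => Nat.div_lt_of_lt_mul (hd.trans hMs)
  have hmod : ∀ d : ℕ, d % r < r := fun d => Nat.mod_lt d (by omega)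
  have hdec : ∀ (q : ℝ) (d : ℕ), (r * x1 (d / r) + x2 (d % r)) + q * d =
      r * (x1 (d / r) + q * (d / r : ℕ)) + (x2 (d % r) + q * (d % r : ℕ)) := by
    intro q d
    have h1 : (d : ℝ) = r * (d / r : ℕ) + (d % r : ℕ) := by exact_mod_cast (Nat.div_add_mod d r).symm
    have h2 : q * (d : ℝ) = q * (r * (d / r : ℕ) + (d % r : ℕ)) := congrArg (fun z => q * z) h1
    rw [h2]; ring
  set θ := max (1 - α * (1 - t1)) (1 - (1 - α) * (1 - t2)) with hθ
  have hMθ : (0 : ℝ) ≤ (M : ℝ) ^ θ := by positivity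
  refine ⟨fun d => r * x1 (d / r) + x2 (d % r), ?_, ?_⟩
  · intro d hd
    have h1 := hb1 _ (hdiv d hd)
    have h2 := hb2 _ (hmod d)
    have h3 : |(r : ℝ) * x1 (d / r) + x2 (d % r)| ≤ r * (C1 * s) + C2 * r := by
      refine (abs_add_le _ _).trans (add_le_add ?_ h2)
      rw [abs_mul, Nat.abs_cast]
      exact mul_le_mul_of_nonneg_left h1 (by linarith)
    have h5 : (r : ℝ) * (C1 * s) + C2 * r ≤ (C1 + C2) * (s * r) := by
      have h8 : 0 ≤ C2 * ((r : ℝ) * ((s : ℝ) - 1)) :=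
        mul_nonneg (by linarith) (mul_nonneg (by linarith) (by linarith))
      nlinarith
    have h6 : (C1 + C2) * ((s : ℝ) * r) ≤ (C1 + C2) * (4 * M) :=
      mul_le_mul_of_nonneg_left hsr (by linarith)
    have h7 : (C1 + C2) * (4 * M) ≤ C * M := by
      have : (4 * (C1 + C2)) * M ≤ C * M := mul_le_mul_of_nonneg_right (by linarith) (Nat.cast_nonneg _)
      linarith
    linarith
  · rintro q (hq | hq)
    · -- q ∈ Q
      have hsub : cells M (fun d => r * x1 (d / r) + x2 (d % r)) q ⊆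
          (cells s x1 q).biUnion fun c => Finset.Ico ((r : ℤ) * c - K * r) (r * c + (K + 1) * r) := by
        intro z hz
        obtain ⟨d, hd, rfl⟩ := Finset.mem_image.1 hz
        have hd' := Finset.mem_range.1 hd
        rw [Finset.mem_biUnion]
        refine ⟨⌊x1 (d / r) + q * (d / r : ℕ)⌋, Finset.mem_image.2
          ⟨d / r, Finset.mem_range.2 (hdiv d hd'), rfl⟩, ?_⟩
        rw [hdec]
        set v := x1 (d / r) + q * (d / r : ℕ) with hv
        have h1 := Int.floor_le v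
        have h2 := Int.lt_floor_add_one v
        have h3 : |x2 (d % r) + q * (d % r : ℕ)| ≤ K * r := by
          have h4 := hb2 _ (hmod d)
          have h5 : |q * (d % r : ℕ)| ≤ C1 * r := by
            rw [abs_mul, Nat.abs_cast]
            refine mul_le_mul (hQ q hq) ?_ (Nat.cast_nonneg _) (by linarith)
            exact_mod_cast (hmod d).le
          calc _ ≤ |x2 (d % r)| + |q * (d % r : ℕ)| := abs_add_le _ _
            _ ≤ C2 * r + C1 * r := add_le_add h4 h5
            _ = (C1 + C2) * r := by ring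
            _ ≤ K * r := mul_le_mul_of_nonneg_right hK (by linarith)
        have h4 := abs_le.1 h3
        rw [Finset.mem_Ico]
        constructor
        · rw [Int.le_floor]
          push_cast
          have : (r : ℝ) * (⌊v⌋ : ℝ) ≤ r * v := mul_le_mul_of_nonneg_left h1 (by linarith)
          linarith [h4.1]
        · rw [Int.floor_lt]
          push_cast
          have : (r : ℝ) * v < r * ((⌊v⌋ : ℝ) + 1) := mul_lt_mul_of_pos_left h2 (by linarith)
          nlinarith [h4.2]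
      have hcard := (Finset.card_le_card hsub).trans Finset.card_biUnion_le
      have h1 : ∀ c ∈ cells s x1 q, (Finset.Ico ((r : ℤ) * c - K * r) (r * c + (K + 1) * r)).card
          = (2 * K + 1) * r := by
        intro c _
        rw [Int.card_Ico]
        have : (r : ℤ) * c + (K + 1) * r - ((r : ℤ) * c - K * r) = (((2 * K + 1) * r : ℕ) : ℤ) := by
          push_cast; ring
        rw [this, Int.toNat_natCast]
      rw [Finset.sum_congr rfl h1, Finset.sum_const, smul_eq_mul] at hcard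
      have h2 : ((cells M (fun d => r * x1 (d / r) + x2 (d % r)) q).card : ℝ) ≤
          (cells s x1 q).card * ((2 * K + 1) * r) := by exact_mod_cast hcard
      have h3 := hc1 q hq
      have h5 := pw hM1 (by linarith : (0 : ℝ) ≤ s) hsle h10 h11
      have h6 : (M : ℝ) ^ (α * t1) * (M : ℝ) ^ (1 - α) ≤ (M : ℝ) ^ θ := by
        rw [← Real.rpow_add hM0]
        refine Real.rpow_le_rpow_of_exponent_le hM1 (le_trans (le_of_eq ?_) (le_max_left _ _))
        ring
      calc _ ≤ _ := h2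
        _ ≤ C1 * (s : ℝ) ^ t1 * ((2 * K + 1) * r) := mul_le_mul_of_nonneg_right h3 (by positivity)
        _ ≤ C1 * (2 * (M : ℝ) ^ (α * t1)) * ((2 * K + 1) * (2 * (M : ℝ) ^ (1 - α))) := by
            refine mul_le_mul (mul_le_mul_of_nonneg_left h5 (by linarith))
              (mul_le_mul_of_nonneg_left hrle (by positivity)) (by positivity) (by positivity)
        _ = (4 * (2 * K + 1) * C1) * ((M : ℝ) ^ (α * t1) * (M : ℝ) ^ (1 - α)) := by ring
        _ ≤ (4 * (2 * K + 1) * C1) * (M : ℝ) ^ θ := mul_le_mul_of_nonneg_left h6 (by positivity)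
        _ ≤ C * (M : ℝ) ^ θ := by
            refine mul_le_mul_of_nonneg_right ?_ hMθ
            rw [hCdef]
            nlinarith
    · -- q ∈ R
      have hsub : cells M (fun d => r * x1 (d / r) + x2 (d % r)) q ⊆
          ((Finset.range s ×ˢ cells r x2 q) ×ˢ ({0, 1} : Finset ℤ)).image fun w =>
            ⌊(r : ℝ) * (x1 w.1.1 + q * (w.1.1 : ℕ))⌋ + w.1.2 + w.2 := by
        intro z hz
        obtain ⟨d, hd, rfl⟩ := Finset.mem_image.1 hz
        have hd' := Finset.mem_range.1 hd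
        rw [hdec]
        set u := (r : ℝ) * (x1 (d / r) + q * (d / r : ℕ)) with hu
        set v := x2 (d % r) + q * (d % r : ℕ) with hv
        have h1 := Int.floor_le u
        have h2 := Int.lt_floor_add_one u
        have h3 := Int.floor_le v
        have h4 := Int.lt_floor_add_one v
        have h5 : ⌊u⌋ + ⌊v⌋ ≤ ⌊u + v⌋ := by
          rw [Int.le_floor]; push_cast; linarith
        have h6 : ⌊u + v⌋ < ⌊u⌋ + ⌊v⌋ + 2 := by
          rw [Int.floor_lt]; push_cast; linarith
        have hmem1 : ⌊v⌋ ∈ cells r x2 q :=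
          Finset.mem_image.2 ⟨d % r, Finset.mem_range.2 (hmod d), rfl⟩
        rw [Finset.mem_image]
        rcases (show ⌊u + v⌋ = ⌊u⌋ + ⌊v⌋ + 0 ∨ ⌊u + v⌋ = ⌊u⌋ + ⌊v⌋ + 1 by omega) with h7 | h7
        · refine ⟨((d / r, ⌊v⌋), 0), ?_, h7.symm⟩
          rw [Finset.mem_product, Finset.mem_product]
          exact ⟨⟨Finset.mem_range.2 (hdiv d hd'), hmem1⟩, by simp⟩
        · refine ⟨((d / r, ⌊v⌋), 1), ?_, h7.symm⟩
          rw [Finset.mem_product, Finset.mem_product]
          exact ⟨⟨Finset.mem_range.2 (hdiv d hd'), hmem1⟩, by simp⟩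
      have hcard := (Finset.card_le_card hsub).trans Finset.card_image_le
      rw [Finset.card_product, Finset.card_product, Finset.card_range] at hcard
      have h2c : ({0, 1} : Finset ℤ).card = 2 := by simp
      rw [h2c] at hcard
      have h2 : ((cells M (fun d => r * x1 (d / r) + x2 (d % r)) q).card : ℝ) ≤
          s * (cells r x2 q).card * 2 := by exact_mod_cast hcard
      have h3 := hc2 q hq
      have h5 := pw hM1 (by linarith : (0 : ℝ) ≤ r) hrle h20 h21
      have h6 : (M : ℝ) ^ α * (M : ℝ) ^ ((1 - α) * t2) ≤ (M : ℝ) ^ θ := by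
        rw [← Real.rpow_add hM0]
        refine Real.rpow_le_rpow_of_exponent_le hM1 (le_trans (le_of_eq ?_) (le_max_right _ _))
        ring
      calc _ ≤ _ := h2
        _ ≤ s * (C2 * (r : ℝ) ^ t2) * 2 := by
            refine mul_le_mul_of_nonneg_right (mul_le_mul_of_nonneg_left h3 (by linarith)) (by norm_num)
        _ ≤ (2 * (M : ℝ) ^ α) * (C2 * (2 * (M : ℝ) ^ ((1 - α) * t2))) * 2 := by
            refine mul_le_mul_of_nonneg_right ?_ (by norm_num)
            exact mul_le_mul hsle (mul_le_mul_of_nonneg_left h5 (by linarith)) (by positivity)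
              (by positivity)
        _ = (8 * C2) * ((M : ℝ) ^ α * (M : ℝ) ^ ((1 - α) * t2)) := by ring
        _ ≤ (8 * C2) * (M : ℝ) ^ θ := mul_le_mul_of_nonneg_left h6 (by linarith)
        _ ≤ C * (M : ℝ) ^ θ := mul_le_mul_of_nonneg_right (by linarith) hMθ

end Pool.Agent.Helper28.GT2
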